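import Mathlib

/-!
# Dilates of integer sets and Kakeya sets: definitions (MP_741d1b)
-/

set_option autoImplicit false

namespace Pool.Agent.MP_741d1b.KAK

/-- The number of points `θ a` modulo one, `a ∈ A`, in the arc `[x, x + 1 / n]` (exactly as in the
frozen statement S17423). -/
noncomputable def arcCount (A : Finset ℤ) (n : ℕ) (θ x : ℝ) : ℕ :=
  {a : ℤ | a ∈ A ∧ ∃ k : ℤ, x ≤ θ * (a : ℝ) - (k : ℝ) ∧
    θ * (a : ℝ) - (k : ℝ) ≤ x + 1 / (n : ℝ)}.ncard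

/-- The assertion of Q1 with the exponent `c`. -/
def Dilates (c : ℝ) : Prop :=
  ∃ N : ℕ, ∀ n : ℕ, N ≤ n → ∀ A : Finset ℤ, A.card = n →
    ∃ θ : ℝ, ∀ x : ℝ, (arcCount A n θ x : ℝ) ≤ (n : ℝ) ^ c

/-- `E` contains a unit line segment in every direction. -/
def IsKakeya {d : ℕ} (E : Set (Fin d → ℝ)) : Prop :=
  ∀ v : Fin d → ℝ, ∑ i, v i ^ 2 = 1 → ∃ y : Fin d → ℝ, ∀ t : ℝ, 0 ≤ t → t ≤ 1 → y + t • v ∈ E

/-- The cells `δ (z + [0, 1)^d)`, `z` an integer vector, which meet `E`. -/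
def cells {d : ℕ} (E : Set (Fin d → ℝ)) (δ : ℝ) : Set (Fin d → ℤ) :=
  {z | ∃ p ∈ E, ∀ i, z i = ⌊p i / δ⌋}

/-- `A` contains a `k`-term progression with difference `g` for each `g` with `|g i| ≤ X`. -/
def AllDiffs {m : ℕ} (A : Finset (Fin m → ℤ)) (X k : ℕ) : Prop :=
  ∀ g : Fin m → ℤ, (∀ i, |g i| ≤ (X : ℤ)) → ∃ x : Fin m → ℤ, ∀ j : ℕ, j < k → x + (j : ℤ) • g ∈ A

end Pool.Agent.MP_741d1b.KAK
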