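import Pool.Agent.Lib.KAK.Defs

/-!
# Dirichlet's theorem for one linear form in several variables
-/

set_option autoImplicit false

namespace Pool.Agent.MP_741d1b.KAK

open Finset

theorem dirichlet {m X : ℕ} (hm : 0 < m) (hX : 0 < X) (α : Fin m → ℝ) :
    ∃ g : Fin m → ℤ, g ≠ 0 ∧ (∀ i, |g i| ≤ (X : ℤ)) ∧
      ∃ h : ℤ, |∑ i, α i * (g i : ℝ) - h| ≤ 1 / (X : ℝ) ^ m := by
  classical
  set Q : ℕ := X ^ m with hQ
  have hQ0 : 0 < Q := pow_pos hX m
  have hQR : (0 : ℝ) < (Q : ℝ) := by exact_mod_cast hQ0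
  let f : (Fin m → Fin (X + 1)) → ℝ := fun u => ∑ i, α i * ((u i : ℕ) : ℝ)
  let c : (Fin m → Fin (X + 1)) → ℕ := fun u => ⌊Int.fract (f u) * Q⌋₊
  have hc : ∀ u ∈ (univ : Finset (Fin m → Fin (X + 1))), c u ∈ range Q := by
    intro u _
    rw [mem_range]
    have h0 : 0 ≤ Int.fract (f u) * Q := mul_nonneg (Int.fract_nonneg _) hQR.le
    rw [Nat.floor_lt h0]
    have := Int.fract_lt_one (f u)
    nlinarith
  have hcard : (range Q).card < (univ : Finset (Fin m → Fin (X + 1))).card := by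
    rw [card_range, card_univ, Fintype.card_fun, Fintype.card_fin, Fintype.card_fin, hQ]
    exact Nat.pow_lt_pow_left (Nat.lt_succ_self X) hm.ne'
  obtain ⟨u, -, w, -, huw, hcuw⟩ := exists_ne_map_eq_of_card_lt_of_maps_to hcard hc
  refine ⟨fun i => ((u i : ℕ) : ℤ) - ((w i : ℕ) : ℤ), ?_, ?_, ⌊f u⌋ - ⌊f w⌋, ?_⟩
  · intro h
    apply huw
    funext i
    have := congrFun h i
    simp only [Pi.zero_apply, sub_eq_zero, Nat.cast_inj] at this
    exact Fin.ext this
  · intro i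
    have h1 := (u i).is_lt
    have h2 := (w i).is_lt
    show |((u i : ℕ) : ℤ) - ((w i : ℕ) : ℤ)| ≤ (X : ℤ)
    rw [abs_le]
    constructor <;> omega
  · have e : ∑ i, α i * (((((u i : ℕ) : ℤ) - ((w i : ℕ) : ℤ) : ℤ)) : ℝ) = f u - f w := by
      simp only [f]
      rw [← sum_sub_distrib]
      refine sum_congr rfl fun i _ => ?_
      push_cast
      ring
    rw [e]
    push_cast
    have e2 : f u - f w - ((⌊f u⌋ : ℝ) - ⌊f w⌋) = Int.fract (f u) - Int.fract (f w) := by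
      rw [← Int.self_sub_floor, ← Int.self_sub_floor]
      ring
    rw [e2]
    have h1 := Nat.floor_le (mul_nonneg (Int.fract_nonneg (f u)) hQR.le)
    have h2 := Nat.lt_floor_add_one (Int.fract (f u) * (Q : ℝ))
    have h3 := Nat.floor_le (mul_nonneg (Int.fract_nonneg (f w)) hQR.le)
    have h4 := Nat.lt_floor_add_one (Int.fract (f w) * (Q : ℝ))
    have h5 : (⌊Int.fract (f u) * (Q : ℝ)⌋₊ : ℝ) = (⌊Int.fract (f w) * (Q : ℝ)⌋₊ : ℝ) := by
      exact_mod_cast hcuw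
    have h6 : |(Int.fract (f u) - Int.fract (f w)) * Q| ≤ 1 := by
      rw [abs_le]
      constructor <;> nlinarith
    rw [abs_mul, abs_of_pos hQR] at h6
    have h7 : ((X : ℝ) ^ m) = (Q : ℝ) := by rw [hQ]; push_cast; ring
    rw [h7, le_div_iff₀ hQR]
    exact h6

end Pool.Agent.MP_741d1b.KAK
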