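import Pool.Agent.Lib.KAK.Defs

/-!
# Slices of Kakeya sets contain progressions of all differences
-/

set_option autoImplicit false

namespace Pool.Agent.MP_741d1b.KAK

open Finset

theorem cells_finite {d : ℕ} {E : Set (Fin d → ℝ)} (hb : Bornology.IsBounded E) {δ : ℝ}
    (hδ : 0 < δ) : (cells E δ).Finite := by
  obtain ⟨R, hR⟩ := hb.exists_norm_le
  refine (Set.finite_Icc (fun _ : Fin d => ⌊-R / δ⌋) (fun _ : Fin d => ⌊R / δ⌋)).subset ?_
  rintro z ⟨p, hp, hz⟩
  have h1 := hR p hp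
  constructor
  · intro i
    rw [hz i]
    apply Int.floor_le_floor
    apply div_le_div_of_nonneg_right _ hδ.le
    have := norm_le_pi_norm p i
    rw [Real.norm_eq_abs] at this
    exact (abs_le.mp (this.trans h1)).1
  · intro i
    show z i ≤ ⌊R / δ⌋
    rw [hz i]
    apply Int.floor_le_floor
    apply div_le_div_of_nonneg_right _ hδ.le
    have := norm_le_pi_norm p i
    rw [Real.norm_eq_abs] at this
    exact (abs_le.mp (this.trans h1)).2

theorem slices {m : ℕ} {E : Set (Fin (m + 1) → ℝ)} (hE : IsKakeya E)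
    (hb : Bornology.IsBounded E) {δ : ℝ} (hδ : 0 < δ) {k M X : ℕ} (hM : 0 < M)
    (hkM : ((k : ℝ) + 2) * M * δ ≤ 1 / 2) (hX : 4 * (m + 1) * X ≤ M) :
    ∃ A : Finset (Fin m → ℤ), M * A.card ≤ (cells E δ).ncard ∧ AllDiffs A X k := by
  classical
  have hfin := cells_finite hb hδ
  set S : Finset (Fin (m + 1) → ℤ) := hfin.toFinset with hS
  have hSc : (cells E δ).ncard = S.card := Set.ncard_eq_toFinset_card _ hfin
  let A : ℕ → Finset (Fin m → ℤ) := fun o =>
    (S.filter fun z => z (Fin.last m) % (M : ℤ) = (o : ℤ)).image fun z i => z (Fin.castSucc i)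
  have hMR : (0 : ℝ) < (M : ℝ) := by exact_mod_cast hM
  have hsum : ∑ o ∈ range M, (A o).card ≤ S.card := by
    calc ∑ o ∈ range M, (A o).card
        ≤ ∑ o ∈ range M, (S.filter fun z => z (Fin.last m) % (M : ℤ) = (o : ℤ)).card :=
          sum_le_sum fun o _ => card_image_le
      _ = ((range M).biUnion fun o =>
            S.filter fun z => z (Fin.last m) % (M : ℤ) = (o : ℤ)).card := by
          rw [card_biUnion]
          intro a _ b _ hab
          rw [Function.onFun, disjoint_filter]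
          intro z _ h1 h2
          apply hab
          exact_mod_cast h1.symm.trans h2
      _ ≤ S.card := card_le_card (biUnion_subset.mpr fun o _ => filter_subset _ _)
  obtain ⟨o, ho, hoA⟩ : ∃ o ∈ range M, M * (A o).card ≤ S.card := by
    by_contra hcon
    push Not at hcon
    have hne : (range M).Nonempty := ⟨0, mem_range.mpr hM⟩
    have h1 : ∑ o ∈ range M, S.card < ∑ o ∈ range M, M * (A o).card := sum_lt_sum_of_nonempty hne hcon
    rw [sum_const, card_range, smul_eq_mul, ← mul_sum] at h1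
    exact absurd (lt_of_mul_lt_mul_left h1 (Nat.zero_le M)) (not_lt.mpr hsum)
  have hoM : o < M := mem_range.mp ho
  refine ⟨A o, by rw [hSc]; exact hoA, ?_⟩
  intro g hg
  -- the direction
  let v : Fin (m + 1) → ℝ := Fin.snoc (fun i : Fin m => (g i : ℝ) / M) (1 : ℝ)
  have hvl : v (Fin.last m) = 1 := by simp [v]
  have hvc : ∀ i : Fin m, v (Fin.castSucc i) = (g i : ℝ) / M := by intro i; simp [v]
  have hsq : ∑ i, v i ^ 2 = (∑ i : Fin m, ((g i : ℝ) / M) ^ 2) + 1 := by
    rw [Fin.sum_univ_castSucc, hvl]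
    simp [hvc]
  have hgM : ∀ i, |(g i : ℝ) / M| ≤ 1 / (m + 1) := by
    intro i
    rw [abs_div, abs_of_pos hMR, div_le_div_iff₀ hMR (by positivity)]
    have h1 : |(g i : ℝ)| ≤ X := by exact_mod_cast hg i
    have h2 : (4 : ℝ) * (m + 1) * X ≤ M := by exact_mod_cast hX
    have h3 : (0 : ℝ) ≤ X := Nat.cast_nonneg X
    nlinarith [abs_nonneg ((g i : ℝ)), Nat.cast_nonneg (α := ℝ) m]
  have hsq1 : ∑ i : Fin m, ((g i : ℝ) / M) ^ 2 ≤ 1 := by
    calc ∑ i : Fin m, ((g i : ℝ) / M) ^ 2 ≤ ∑ i : Fin m, (1 / ((m : ℝ) + 1)) := by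
          refine sum_le_sum fun i _ => ?_
          have h1 := hgM i
          have h2 : (1 : ℝ) / (m + 1) ≤ 1 := by
            rw [div_le_one (by positivity)]
            linarith [Nat.cast_nonneg (α := ℝ) m]
          have h0 : (0 : ℝ) ≤ 1 / (m + 1) := by positivity
          rw [← sq_abs]
          nlinarith [abs_nonneg ((g i : ℝ) / M)]
      _ = m * (1 / ((m : ℝ) + 1)) := by simp
      _ ≤ 1 := by
          rw [mul_one_div, div_le_one (by positivity)]
          linarith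
  set ρ : ℝ := Real.sqrt (∑ i, v i ^ 2) with hρ
  have hsqge : 1 ≤ ∑ i, v i ^ 2 := by
    rw [hsq]
    have : 0 ≤ ∑ i : Fin m, ((g i : ℝ) / M) ^ 2 := sum_nonneg fun i _ => sq_nonneg _
    linarith
  have hρ1 : 1 ≤ ρ := by
    rw [hρ]
    exact Real.one_le_sqrt.mpr hsqge
  have hρ0 : 0 < ρ := by linarith
  have hρsq : ρ ^ 2 = ∑ i, v i ^ 2 := Real.sq_sqrt (by linarith)
  have hρ2 : ρ ≤ 2 := by
    rw [hρ]
    apply Real.sqrt_le_iff.mpr
    constructor
    · norm_num
    · rw [hsq]; linarith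
  obtain ⟨y, hy⟩ := hE (fun i => v i / ρ) (by
    simp only [div_pow]
    rw [← sum_div, hρsq, div_self (by linarith)])
  set yl : ℝ := y (Fin.last m) with hyl
  set i0 : ℤ := ⌈(yl / δ - o) / M⌉ with hi0
  have hlow : yl ≤ ((o : ℝ) + i0 * M) * δ := by
    have h1 := Int.le_ceil ((yl / δ - o) / M)
    rw [← hi0, div_le_iff₀ hMR] at h1
    have h2 : yl / δ ≤ (o : ℝ) + i0 * M := by linarith
    rwa [div_le_iff₀ hδ] at h2
  have hup : ((o : ℝ) + i0 * M) * δ < yl + M * δ := by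
    have h1 := Int.ceil_lt_add_one ((yl / δ - o) / M)
    rw [← hi0] at h1
    have h2 : ((i0 : ℝ) - 1) * M < yl / δ - o := by
      rw [← lt_div_iff₀ hMR]
      linarith
    have h3 : ((i0 : ℝ) - 1) * M + o < yl / δ := by linarith
    rw [lt_div_iff₀ hδ] at h3
    nlinarith
  let x : Fin m → ℤ := fun i => ⌊(y (Fin.castSucc i) + (((o : ℝ) + i0 * M) * δ - yl) * ((g i : ℝ) / M)) / δ⌋
  refine ⟨x, fun j hj => ?_⟩
  have hj0 : (0 : ℝ) ≤ (j : ℝ) := Nat.cast_nonneg j
  have hjk : (j : ℝ) + 1 ≤ (k : ℝ) := by exact_mod_cast hj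
  have hMδ : 0 < (M : ℝ) * δ := mul_pos hMR hδ
  set t : ℝ := (((o : ℝ) + (i0 + j) * M) * δ - yl) * ρ with ht
  have ht0 : 0 ≤ t := by
    apply mul_nonneg _ hρ0.le
    nlinarith [mul_nonneg hj0 hMδ.le]
  have ht1 : t ≤ 1 := by
    have h1 : ((o : ℝ) + (i0 + j) * M) * δ - yl ≤ 1 / 2 := by
      nlinarith [mul_le_mul_of_nonneg_right hjk hMδ.le]
    have h2 : 0 ≤ ((o : ℝ) + (i0 + j) * M) * δ - yl := by
      nlinarith [mul_nonneg hj0 hMδ.le]
    rw [ht]
    nlinarith
  have hp := hy t ht0 ht1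
  have hcell : (fun i : Fin (m + 1) => ⌊(y + t • fun i => v i / ρ) i / δ⌋) ∈ cells E δ :=
    ⟨_, hp, fun i => rfl⟩
  have hlast : (y + t • fun i => v i / ρ) (Fin.last m) / δ = (((o : ℤ) + (i0 + j) * M : ℤ) : ℝ) := by
    simp only [Pi.add_apply, Pi.smul_apply, smul_eq_mul, hvl]
    rw [← hyl, ht]
    push_cast
    field_simp
    ring
  have hfirst : ∀ i : Fin m, (y + t • fun i => v i / ρ) (Fin.castSucc i) / δ =
      (y (Fin.castSucc i) + (((o : ℝ) + i0 * M) * δ - yl) * ((g i : ℝ) / M)) / δ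
        + (((j : ℤ) * g i : ℤ) : ℝ) := by
    intro i
    simp only [Pi.add_apply, Pi.smul_apply, smul_eq_mul, hvc]
    rw [ht]
    push_cast
    field_simp
    ring
  simp only [A, mem_image, mem_filter]
  refine ⟨fun i : Fin (m + 1) => ⌊(y + t • fun i => v i / ρ) i / δ⌋, ⟨?_, ?_⟩, ?_⟩
  · rw [hS, Set.Finite.mem_toFinset]
    exact hcell
  · simp only [hlast, Int.floor_intCast]
    rw [Int.add_mul_emod_self_right]
    exact Int.emod_eq_of_lt (by positivity) (by exact_mod_cast hoM)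
  · funext i
    have e1 : ⌊(y + t • fun i => v i / ρ) (Fin.castSucc i) / δ⌋ = x i + (j : ℤ) * g i := by
      rw [hfirst i, Int.floor_add_intCast]
    simpa using e1

end Pool.Agent.MP_741d1b.KAK
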