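import Pool.Agent.Lib.KAK.Transfer
import Pool.Agent.Lib.KAK.Slices

/-!
# An exponent for dilates gives a dimension bound for Kakeya sets
-/

set_option autoImplicit false

namespace Pool.Agent.MP_741d1b.KAK

open Finset Filter

theorem kakeya_core {m : ℕ} (hm : 0 < m) {c : ℝ} (hc : 0 < c) {E : Set (Fin (m + 1) → ℝ)}
    (hE : IsKakeya E) (hb : Bornology.IsBounded E) {N0 : ℕ}
    (hD : ∀ n : ℕ, N0 ≤ n → ∀ A : Finset ℤ, A.card = n →
      ∃ θ : ℝ, ∀ x : ℝ, (arcCount A n θ x : ℝ) ≤ (n : ℝ) ^ c)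
    {y s : ℝ} (hs : s = c * m / (1 + c * (m + 1))) (hy1 : 1 ≤ y)
    (hy2 : 160 * ((m : ℝ) + 1) ≤ y ^ (1 - s))
    (hy3 : 2 * ((N0 : ℝ) + 1) * (3 * (160 * ((m : ℝ) + 1)) ^ m) ≤ y ^ ((m : ℝ) * (1 - s) - s)) :
    1 / ((20 : ℝ) ^ (m + 1) * (6 * (8 * ((m : ℝ) + 1)) ^ m)) * y ^ (((m : ℝ) + 1) - s * (m + 2)) ≤
      ((cells E (1 / y)).ncard : ℝ) := by
  have hy0 : 0 < y := by linarith
  have hm0 : (0 : ℝ) < m := by exact_mod_cast hm
  have hden : 0 < 1 + c * ((m : ℝ) + 1) := by positivity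
  have hs0 : 0 < s := by rw [hs]; positivity
  have hys1 : 1 ≤ y ^ s := Real.one_le_rpow hy1 hs0.le
  have hys0 : 0 < y ^ s := by positivity
  -- the length of the progressions
  set k : ℕ := ⌊y ^ s⌋₊ + 1 with hk
  have hk1 : y ^ s < (k : ℝ) := by
    rw [hk]; push_cast; exact Nat.lt_floor_add_one _
  have hk2 : (k : ℝ) ≤ 3 * y ^ s := by
    rw [hk]; push_cast
    have := Nat.floor_le hys0.le
    linarith
  have hk3 : (k : ℝ) + 2 ≤ 5 * y ^ s := by
    rw [hk]; push_cast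
    have := Nat.floor_le hys0.le
    linarith
  have hk0 : 0 < k := by omega
  have hkR : (0 : ℝ) < (k : ℝ) := by exact_mod_cast hk0
  -- the spacing
  set W : ℝ := y / (2 * ((k : ℝ) + 2)) with hW
  set M : ℕ := ⌊W⌋₊ with hM
  have hW0 : 0 < W := by rw [hW]; positivity
  have hMW : (M : ℝ) ≤ W := Nat.floor_le hW0.le
  have hy1s : y ^ (1 - s) * y ^ s = y := by
    rw [← Real.rpow_add hy0]; simp
  have hWlow : y ^ (1 - s) / 20 ≤ W / 2 := by
    rw [hW, div_div, div_le_div_iff₀ (by norm_num) (by positivity)]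
    have h1 : y ^ (1 - s) * ((k : ℝ) + 2) ≤ y ^ (1 - s) * (5 * y ^ s) :=
      mul_le_mul_of_nonneg_left hk3 (by positivity)
    nlinarith
  have hm1 : (1 : ℝ) ≤ m := by exact_mod_cast hm
  have hW2 : 1 ≤ W / 2 := by nlinarith
  have hMlow : W / 2 ≤ (M : ℝ) := by
    have := Nat.lt_floor_add_one W
    rw [← hM] at this
    linarith
  have hM1 : y ^ (1 - s) / 20 ≤ (M : ℝ) := hWlow.trans hMlow
  have hM8 : 8 * ((m : ℝ) + 1) ≤ M := by linarith
  have hM0 : 0 < M := by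
    have : (0 : ℝ) < M := by linarith
    exact_mod_cast this
  -- the size of the differences
  set X : ℕ := M / (4 * (m + 1)) with hX
  have hXM : 4 * (m + 1) * X ≤ M := Nat.mul_div_le M (4 * (m + 1))
  have hXlow : (M : ℝ) / (8 * (m + 1)) ≤ X := by
    have h1 : M < 4 * (m + 1) * (X + 1) := by
      rw [hX, mul_comm]
      exact Nat.lt_mul_of_div_lt (Nat.lt_succ_self _) (by positivity)
    have h2 : (M : ℝ) < 4 * (m + 1) * (X + 1) := by exact_mod_cast h1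
    rw [div_le_iff₀ (by positivity)]
    nlinarith
  have hXM' : (X : ℝ) ≤ M := by
    have : X ≤ M := Nat.div_le_self _ _
    exact_mod_cast this
  have hX1 : (1 : ℝ) ≤ X := by
    refine le_trans ?_ hXlow
    rw [le_div_iff₀ (by positivity)]
    linarith
  have hX0 : 0 < X := by
    have : (0 : ℝ) < X := by linarith
    exact_mod_cast this
  have hXbig : y ^ (1 - s) / (160 * (m + 1)) ≤ X := by
    refine le_trans ?_ hXlow
    rw [div_le_div_iff₀ (by positivity) (by positivity)]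
    nlinarith
  -- the number of points
  set n : ℕ := X ^ m / k with hn
  have hkn : k * n ≤ X ^ m := Nat.mul_div_le _ _
  have hXk : 2 * ((N0 : ℝ) + 1) ≤ (X : ℝ) ^ m / k := by
    rw [le_div_iff₀ hkR]
    have h1 : (y ^ (1 - s) / (160 * (m + 1))) ^ m ≤ (X : ℝ) ^ m :=
      pow_le_pow_left₀ (by positivity) hXbig m
    have h2 : (y ^ (1 - s) / (160 * ((m : ℝ) + 1))) ^ m * (160 * ((m : ℝ) + 1)) ^ m
        = y ^ ((m : ℝ) * (1 - s)) := by
      rw [div_pow, div_mul_cancel₀ _ (by positivity), ← Real.rpow_natCast, ← Real.rpow_mul hy0.le,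
        mul_comm]
    have h3 : y ^ ((m : ℝ) * (1 - s) - s) * y ^ s = y ^ ((m : ℝ) * (1 - s)) := by
      rw [← Real.rpow_add hy0]; congr 1; ring
    have hP : (0 : ℝ) < (160 * ((m : ℝ) + 1)) ^ m := by positivity
    have h4 : 2 * ((N0 : ℝ) + 1) * k * (160 * ((m : ℝ) + 1)) ^ m ≤ y ^ ((m : ℝ) * (1 - s)) := by
      calc 2 * ((N0 : ℝ) + 1) * k * (160 * ((m : ℝ) + 1)) ^ m
          ≤ 2 * ((N0 : ℝ) + 1) * (3 * y ^ s) * (160 * ((m : ℝ) + 1)) ^ m := by
            gcongr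
        _ = 2 * ((N0 : ℝ) + 1) * (3 * (160 * ((m : ℝ) + 1)) ^ m) * y ^ s := by ring
        _ ≤ y ^ ((m : ℝ) * (1 - s) - s) * y ^ s := by gcongr
        _ = y ^ ((m : ℝ) * (1 - s)) := h3
    rw [← h2] at h4
    exact (le_of_mul_le_mul_right h4 hP).trans h1
  have hnlow : (X : ℝ) ^ m / k / 2 ≤ n := by
    have h1 : X ^ m < k * (n + 1) := by
      rw [hn, mul_comm]
      exact Nat.lt_mul_of_div_lt (Nat.lt_succ_self _) hk0
    have h2 : (X : ℝ) ^ m < k * (n + 1) := by exact_mod_cast h1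
    have h3 : (X : ℝ) ^ m / k < n + 1 := by
      rw [div_lt_iff₀ hkR]; linarith
    have h0 : (0 : ℝ) ≤ N0 := Nat.cast_nonneg _
    linarith
  have hnN : N0 + 1 ≤ n := by
    have : (N0 : ℝ) + 1 ≤ n := by linarith
    exact_mod_cast this
  have hn0 : 0 < n := by omega
  have hnR : (0 : ℝ) < n := by exact_mod_cast hn0
  -- the lower bound for the number of cells
  have hkey : (M : ℝ) * n < ((cells E (1 / y)).ncard : ℝ) := by
    by_contra hcon
    push Not at hcon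
    have hcon' : (cells E (1 / y)).ncard ≤ M * n := by exact_mod_cast hcon
    have hkM : ((k : ℝ) + 2) * M * (1 / y) ≤ 1 / 2 := by
      rw [mul_one_div, div_le_div_iff₀ hy0 (by norm_num), one_mul]
      have h1 : ((k : ℝ) + 2) * M ≤ (k + 2) * W := mul_le_mul_of_nonneg_left hMW (by positivity)
      have h2 : ((k : ℝ) + 2) * W * 2 = y := by
        rw [hW]; field_simp
      nlinarith
    obtain ⟨A, hA1, hA2⟩ := slices hE hb (one_div_pos.mpr hy0) (k := k) hM0 hkM hXM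
    have hAn : A.card ≤ n := Nat.le_of_mul_le_mul_left (hA1.trans hcon') hM0
    obtain ⟨B, hB1, hB2⟩ := transfer hm hX0 hk0 hn0 A hA2 hAn hkn
    obtain ⟨θ, hθ⟩ := hD n (by omega) B hB1
    obtain ⟨x, hx⟩ := hB2 θ
    have h1 : (k : ℝ) ≤ (n : ℝ) ^ c := le_trans (by exact_mod_cast hx) (hθ x)
    have h2 : (n : ℝ) ≤ y ^ (m : ℝ) / (k : ℝ) ^ ((m : ℝ) + 1) := by
      have e1 : (n : ℝ) ≤ (X : ℝ) ^ m / k := by
        rw [le_div_iff₀ hkR, mul_comm]
        exact_mod_cast hkn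
      have e2 : (X : ℝ) ≤ y / k := by
        refine hXM'.trans (hMW.trans ?_)
        rw [hW, div_le_div_iff₀ (by positivity) hkR]
        nlinarith
      have e3 : (X : ℝ) ^ m ≤ (y / k) ^ m := pow_le_pow_left₀ (by positivity) e2 m
      calc (n : ℝ) ≤ (X : ℝ) ^ m / k := e1
        _ ≤ (y / k) ^ m / k := by gcongr
        _ = y ^ (m : ℝ) / (k : ℝ) ^ ((m : ℝ) + 1) := by
            rw [div_pow, div_div, Real.rpow_natCast]
            congr 1
            have : ((m : ℝ) + 1) = ((m + 1 : ℕ) : ℝ) := by push_cast; ring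
            rw [this, Real.rpow_natCast, pow_succ]
    have h3 : (n : ℝ) ^ c ≤ y ^ (c * m) / (k : ℝ) ^ (c * ((m : ℝ) + 1)) := by
      calc (n : ℝ) ^ c ≤ (y ^ (m : ℝ) / (k : ℝ) ^ ((m : ℝ) + 1)) ^ c :=
            Real.rpow_le_rpow hnR.le h2 hc.le
        _ = y ^ (c * m) / (k : ℝ) ^ (c * ((m : ℝ) + 1)) := by
            rw [Real.div_rpow (by positivity) (by positivity), ← Real.rpow_mul hy0.le,
              ← Real.rpow_mul hkR.le, mul_comm (m : ℝ) c, mul_comm ((m : ℝ) + 1) c]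
    have h4 : (k : ℝ) ^ (1 + c * ((m : ℝ) + 1)) ≤ y ^ (c * m) := by
      rw [Real.rpow_add hkR, Real.rpow_one, ← le_div_iff₀ (by positivity)]
      exact h1.trans h3
    have h5 : (y ^ s) ^ (1 + c * ((m : ℝ) + 1)) < (k : ℝ) ^ (1 + c * ((m : ℝ) + 1)) :=
      Real.rpow_lt_rpow hys0.le hk1 hden
    rw [← Real.rpow_mul hy0.le] at h5
    have h6 : s * (1 + c * ((m : ℝ) + 1)) = c * m := by
      rw [hs]; field_simp
    rw [h6] at h5
    exact absurd h4 (not_le.mpr h5)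
  refine le_trans ?_ hkey.le
  -- the final computation
  have f1 : y / (4 * (5 * y ^ s)) ≤ (M : ℝ) := by
    refine le_trans ?_ hMlow
    rw [hW, div_div]
    apply div_le_div_of_nonneg_left hy0.le (by positivity)
    nlinarith
  have f1' : y ^ (1 - s) / 20 ≤ (M : ℝ) := hM1
  have f2 : (M : ℝ) ^ m / (8 * ((m : ℝ) + 1)) ^ m ≤ (X : ℝ) ^ m := by
    rw [← div_pow]
    exact pow_le_pow_left₀ (by positivity) hXlow m
  have f3 : (M : ℝ) * ((M : ℝ) ^ m / (8 * ((m : ℝ) + 1)) ^ m / (3 * y ^ s) / 2) ≤ M * n := by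
    apply mul_le_mul_of_nonneg_left _ (Nat.cast_nonneg M)
    refine le_trans ?_ hnlow
    gcongr
  refine le_trans ?_ f3
  have f4 : (y ^ (1 - s) / 20) ^ (m + 1) ≤ (M : ℝ) ^ (m + 1) :=
    pow_le_pow_left₀ (by positivity) hM1 _
  have f5 : (y ^ (1 - s)) ^ (m + 1) = y ^ (((m : ℝ) + 1) - s * (m + 2)) * y ^ s := by
    rw [← Real.rpow_natCast, ← Real.rpow_mul hy0.le, ← Real.rpow_add hy0]
    congr 1
    push_cast
    ring
  have hP : (0 : ℝ) < (8 * ((m : ℝ) + 1)) ^ m := by positivity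
  calc 1 / ((20 : ℝ) ^ (m + 1) * (6 * (8 * ((m : ℝ) + 1)) ^ m)) * y ^ (((m : ℝ) + 1) - s * (m + 2))
      = (y ^ (1 - s) / 20) ^ (m + 1) / (6 * (8 * ((m : ℝ) + 1)) ^ m * y ^ s) := by
        rw [div_pow, f5]
        field_simp
    _ ≤ (M : ℝ) ^ (m + 1) / (6 * (8 * ((m : ℝ) + 1)) ^ m * y ^ s) := by gcongr
    _ = (M : ℝ) * ((M : ℝ) ^ m / (8 * ((m : ℝ) + 1)) ^ m / (3 * y ^ s) / 2) := by
        rw [pow_succ]
        field_simp
        ring

/-- If Q1 holds with the exponent `c`, each bounded Kakeya set in dimension `d ≥ 2` has at least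
`C δ^(-(d - c (d² - 1) / (1 + c d)))` cells. -/
theorem kakeya_bound {c : ℝ} (hc : 0 < c) (hD : Dilates c) {d : ℕ} (hd : 2 ≤ d)
    {E : Set (Fin d → ℝ)} (hE : IsKakeya E) (hb : Bornology.IsBounded E) :
    ∃ C : ℝ, 0 < C ∧ ∃ δ₀ : ℝ, 0 < δ₀ ∧ ∀ δ : ℝ, 0 < δ → δ < δ₀ →
      C * δ ^ (-((d : ℝ) - c * ((d : ℝ) ^ 2 - 1) / (1 + c * d))) ≤ ((cells E δ).ncard : ℝ) := by
  obtain ⟨m, rfl⟩ : ∃ m : ℕ, d = m + 1 := ⟨d - 1, by omega⟩
  have hm : 0 < m := by omega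
  obtain ⟨N0, hN0⟩ := hD
  have hm0 : (0 : ℝ) < m := by exact_mod_cast hm
  have hden : 0 < 1 + c * ((m : ℝ) + 1) := by positivity
  set s : ℝ := c * m / (1 + c * (m + 1)) with hs
  have hs1 : 0 < 1 - s := by
    have : 1 - s = (1 + c) / (1 + c * (m + 1)) := by rw [hs]; field_simp; ring
    rw [this]; positivity
  have hs2 : 0 < (m : ℝ) * (1 - s) - s := by
    have : (m : ℝ) * (1 - s) - s = m / (1 + c * (m + 1)) := by rw [hs]; field_simp; ring
    rw [this]; positivity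
  have t1 := (tendsto_rpow_atTop hs1).eventually_ge_atTop (160 * ((m : ℝ) + 1))
  have t2 := (tendsto_rpow_atTop hs2).eventually_ge_atTop
    (2 * ((N0 : ℝ) + 1) * (3 * (160 * ((m : ℝ) + 1)) ^ m))
  obtain ⟨y0, hy0⟩ := eventually_atTop.mp ((t1.and t2).and (eventually_ge_atTop (1 : ℝ)))
  refine ⟨1 / ((20 : ℝ) ^ (m + 1) * (6 * (8 * ((m : ℝ) + 1)) ^ m)), by positivity,
    1 / (|y0| + 1), by positivity, fun δ hδ hδ0 => ?_⟩
  have hy : y0 ≤ 1 / δ := by
    have h1 : |y0| + 1 < 1 / δ := by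
      rw [lt_div_iff₀ hδ]
      rw [lt_div_iff₀ (by positivity)] at hδ0
      linarith
    linarith [le_abs_self y0]
  obtain ⟨⟨h1, h2⟩, h3⟩ := hy0 (1 / δ) hy
  have h4 := kakeya_core hm hc hE hb hN0 hs h3 h1 h2
  rw [one_div_one_div] at h4
  have h5 : (1 / δ) ^ (((m : ℝ) + 1) - s * (m + 2)) =
      δ ^ (-(((m + 1 : ℕ) : ℝ) - c * (((m + 1 : ℕ) : ℝ) ^ 2 - 1) / (1 + c * ((m + 1 : ℕ) : ℝ)))) := by
    rw [one_div, Real.inv_rpow hδ.le, ← Real.rpow_neg hδ.le]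
    congr 2
    rw [hs]
    push_cast
    field_simp
    ring
  rw [h5] at h4
  exact h4

end Pool.Agent.MP_741d1b.KAK
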