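import Pool.Agent.Lib.KAK.ModP

/-!
# From Kakeya sets modulo `q` to integer vectors
-/

set_option autoImplicit false

namespace Pool.Agent.MP_741d1b.KAK

open Finset

theorem lift {q : ℕ} (hq : 0 < q) {K : Finset (ZMod q × ZMod q)} (hK : ModKak q K) {s k X : ℕ}
    (hs : 1 ≤ s) (hkX : k * X ≤ (s - 1) * q) :
    ∃ A : Finset (Fin 2 → ℤ), A.card ≤ s ^ 2 * K.card ∧ AllDiffs A X k := by
  classical
  have : NeZero q := ⟨hq.ne'⟩
  have hqZ : (0 : ℤ) < (q : ℤ) := by exact_mod_cast hq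
  let F : (ZMod q × ZMod q) × ℕ × ℕ → (Fin 2 → ℤ) := fun t =>
    ![((t.1.1.val : ℕ) : ℤ) + (t.2.1 : ℤ) * q, ((t.1.2.val : ℕ) : ℤ) + (t.2.2 : ℤ) * q]
  let A : Finset (Fin 2 → ℤ) := (K ×ˢ range s ×ˢ range s).image F
  -- membership
  have hmem : ∀ z : Fin 2 → ℤ, (∀ i, 0 ≤ z i ∧ z i < (s : ℤ) * q) →
      (((z 0 : ℤ) : ZMod q), ((z 1 : ℤ) : ZMod q)) ∈ K → z ∈ A := by
    intro z hz hzK
    have hv : ∀ i, (((((z i : ℤ) : ZMod q)).val : ℕ) : ℤ) + (((z i / q).toNat : ℕ) : ℤ) * q = z i := by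
      intro i
      rw [ZMod.val_intCast, Int.toNat_of_nonneg (Int.ediv_nonneg (hz i).1 hqZ.le)]
      have := Int.emod_add_mul_ediv (z i) q
      linarith [mul_comm (z i / (q : ℤ)) (q : ℤ)]
    have hr : ∀ i, (z i / q).toNat ∈ range s := by
      intro i
      rw [mem_range]
      have h1 : z i / q < s := Int.ediv_lt_of_lt_mul hqZ (hz i).2
      have h2 : 0 ≤ z i / q := Int.ediv_nonneg (hz i).1 hqZ.le
      omega
    refine mem_image.mpr ⟨((((z 0 : ℤ) : ZMod q), ((z 1 : ℤ) : ZMod q)), (z 0 / q).toNat,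
      (z 1 / q).toNat), ?_, ?_⟩
    · simp only [mem_product]
      exact ⟨hzK, hr 0, hr 1⟩
    · funext i
      fin_cases i
      · exact hv 0
      · exact hv 1
  refine ⟨A, ?_, ?_⟩
  · refine card_image_le.trans ?_
    rw [card_product, card_product, card_range]
    exact le_of_eq (by ring)
  · intro g hg
    obtain ⟨x, y, hxy⟩ := hK ((g 0 : ℤ) : ZMod q) ((g 1 : ℤ) : ZMod q)
    let sh : ℤ → ℤ := fun a => if 0 ≤ a then 0 else ((s : ℤ) - 1) * q
    have hsh : ∀ a : ℤ, ((sh a : ℤ) : ZMod q) = 0 := by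
      intro a
      simp only [sh]
      split_ifs
      · simp
      · push_cast
        simp
    refine ⟨![((x.val : ℕ) : ℤ) + sh (g 0), ((y.val : ℕ) : ℤ) + sh (g 1)], fun j hj => hmem _ ?_ ?_⟩
    · have hkX' : (k : ℤ) * X ≤ ((s : ℤ) - 1) * q := by
        have : ((s - 1 : ℕ) : ℤ) = (s : ℤ) - 1 := by omega
        rw [← this]
        exact_mod_cast hkX
      have hb : ∀ (w : ZMod q) (a : ℤ), |a| ≤ (X : ℤ) →
          0 ≤ ((w.val : ℕ) : ℤ) + sh a + (j : ℤ) * a ∧
            ((w.val : ℕ) : ℤ) + sh a + (j : ℤ) * a < (s : ℤ) * q := by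
        intro w a ha
        have hw : ((w.val : ℕ) : ℤ) < q := by exact_mod_cast ZMod.val_lt w
        have hw0 : (0 : ℤ) ≤ ((w.val : ℕ) : ℤ) := Int.natCast_nonneg _
        have hj0 : (0 : ℤ) ≤ (j : ℤ) := Int.natCast_nonneg _
        have hjk : (j : ℤ) ≤ (k : ℤ) := by exact_mod_cast hj.le
        have hX0 : (0 : ℤ) ≤ (X : ℤ) := Int.natCast_nonneg _
        have hja : (j : ℤ) * |a| ≤ (k : ℤ) * X := mul_le_mul hjk ha (abs_nonneg a) (by omega)
        simp only [sh]
        split_ifs with h0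
        · rw [abs_of_nonneg h0] at hja
          have h1 : 0 ≤ (j : ℤ) * a := mul_nonneg hj0 h0
          constructor <;> nlinarith
        · push Not at h0
          rw [abs_of_neg h0] at hja
          have h1 : (j : ℤ) * a ≤ 0 := mul_nonpos_of_nonneg_of_nonpos hj0 h0.le
          constructor <;> nlinarith
      intro i
      fin_cases i
      · simpa using hb x (g 0) (hg 0)
      · simpa using hb y (g 1) (hg 1)
    · have h := hxy j
      have e0 : (((![((x.val : ℕ) : ℤ) + sh (g 0), ((y.val : ℕ) : ℤ) + sh (g 1)] + (j : ℤ) • g) 0 : ℤ)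
          : ZMod q) = x + (j : ZMod q) * ((g 0 : ℤ) : ZMod q) := by
        simp only [Pi.add_apply, Pi.smul_apply, smul_eq_mul, Matrix.cons_val_zero]
        push_cast
        rw [hsh, ZMod.natCast_zmod_val]
        ring
      have e1 : (((![((x.val : ℕ) : ℤ) + sh (g 0), ((y.val : ℕ) : ℤ) + sh (g 1)] + (j : ℤ) • g) 1 : ℤ)
          : ZMod q) = y + (j : ZMod q) * ((g 1 : ℤ) : ZMod q) := by
        simp only [Pi.add_apply, Pi.smul_apply, smul_eq_mul, Matrix.cons_val_one]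
        push_cast
        rw [hsh, ZMod.natCast_zmod_val]
        ring
      rw [e0, e1]
      exact h

end Pool.Agent.MP_741d1b.KAK
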