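import Mathlib

/-!
# A supply of primes
-/

set_option autoImplicit false

open Filter Finset

namespace Pool.Agent.MP_741d1b.KAK

theorem supply : ∃ c : ℝ, 0 < c ∧ ∃ N : ℕ, ∀ n : ℕ, N ≤ n →
    ∃ P : Finset ℕ, (∀ p ∈ P, p.Prime ∧ 13 ≤ p) ∧ (∏ p ∈ P, p) ^ 2 ≤ n ∧
      c * (Real.log n / Real.log (Real.log n)) ≤ (P.card : ℝ) := by
  have h1 : ∀ᶠ y : ℝ in atTop, Real.log y ≤ y / 1000 := by
    have h := Real.isLittleO_log_id_atTop.bound (c := 1 / 1000) (by norm_num)
    filter_upwards [h, eventually_ge_atTop (1 : ℝ)] with y hy h1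
    rw [Real.norm_of_nonneg (Real.log_nonneg h1), id, Real.norm_of_nonneg (by linarith)] at hy
    linarith
  have h2 : Tendsto (fun n : ℕ => Real.log (n : ℝ)) atTop atTop :=
    Real.tendsto_log_atTop.comp tendsto_natCast_atTop_atTop
  obtain ⟨N, hN⟩ := eventually_atTop.1 ((h2.eventually (h1.and (eventually_ge_atTop 1000))).and
    (eventually_ge_atTop 1))
  refine ⟨1 / 8, by norm_num, N, fun n hn => ?_⟩
  obtain ⟨⟨hy1, hy2⟩, hn1⟩ := hN n hn
  set y : ℝ := Real.log n with hy
  have hl2 : 0 < Real.log 2 := Real.log_pos (by norm_num)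
  have hl2' : Real.log 2 < 1 := by
    have := Real.log_two_lt_d9
    linarith
  have hl4 : Real.log 4 = 2 * Real.log 2 := by
    rw [show (4 : ℝ) = 2 ^ 2 by norm_num, Real.log_pow]
    push_cast
    ring
  set x : ℕ := ⌊y / (2 * Real.log 4)⌋₊ with hx
  have hd : 0 < 2 * Real.log 4 := by
    rw [hl4]
    linarith
  have hxle : (x : ℝ) ≤ y / (2 * Real.log 4) := Nat.floor_le (by positivity)
  have hxge : y / (2 * Real.log 4) < x + 1 := Nat.lt_floor_add_one _
  rw [le_div_iff₀ hd] at hxle
  rw [div_lt_iff₀ hd] at hxge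
  -- the set of primes
  let P : Finset ℕ := (Nat.primesLE x).filter fun p => 13 ≤ p
  refine ⟨P, ?_, ?_, ?_⟩
  · intro p hp
    have h := Finset.mem_filter.1 hp
    exact ⟨Nat.prime_of_mem_primesLE h.1, h.2⟩
  · have h3 : ∏ p ∈ P, p ≤ primorial x := by
      rw [primorial_eq_prod_primesLE]
      refine Finset.prod_le_prod_of_subset_of_one_le' (Finset.filter_subset _ _) ?_
      intro p hp _
      exact (Nat.prime_of_mem_primesLE hp).one_le
    have h4 : (∏ p ∈ P, p) ^ 2 ≤ (4 ^ x) ^ 2 :=
      Nat.pow_le_pow_left (h3.trans (primorial_le_four_pow x)) 2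
    refine h4.trans ?_
    have hn0 : (0 : ℝ) < n := by exact_mod_cast hn1
    have h5 : (((4 ^ x) ^ 2 : ℕ) : ℝ) ≤ n := by
      rw [← Real.log_le_log_iff (by positivity) hn0]
      push_cast
      rw [Real.log_pow, Real.log_pow]
      push_cast
      linarith
    exact_mod_cast h5
  · have hπ := Chebyshev.pi_ge x
    have hcard : (Nat.primeCounting x : ℝ) ≤ P.card + 13 := by
      have h3 : Nat.primeCounting x = (Nat.primesLE x).card := by
        simp
      have h4 : (Nat.primesLE x).card ≤ P.card + 13 := by
        have h5 := Finset.card_filter_add_card_filter_not (s := Nat.primesLE x) (fun p => 13 ≤ p)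
        have h6 : ((Nat.primesLE x).filter fun p => ¬ 13 ≤ p).card ≤ (Finset.range 13).card := by
          refine Finset.card_le_card fun p hp => ?_
          have := (Finset.mem_filter.1 hp).2
          exact Finset.mem_range.2 (by omega)
        rw [Finset.card_range] at h6
        have h7 : P.card = ((Nat.primesLE x).filter fun p => 13 ≤ p).card := rfl
        omega
      rw [h3]
      exact_mod_cast h4
    -- estimates
    have hx1 : (100 : ℝ) < x := by
      by_contra h
      push Not at h
      nlinarith
    have hxy : (x : ℝ) ≤ y := by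
      have h3 : Real.log 2 > 1 / 2 := by
        have := Real.log_two_gt_d9
        linarith
      nlinarith
    have hlogx : 0 < Real.log x := Real.log_pos (by linarith)
    have hlogy : 0 < Real.log y := Real.log_pos (by linarith)
    have hlogxy : Real.log x ≤ Real.log y := Real.log_le_log (by linarith) hxy
    have hlog1 : Real.log (x + 1) ≤ Real.log 2 + Real.log y := by
      rw [← Real.log_mul (by norm_num) (by linarith)]
      exact Real.log_le_log (by linarith) (by linarith)
    have hnum : y / 4 - Real.log 2 - (Real.log 2 + Real.log y) ≤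
        x * Real.log 2 - Real.log (x + 1) := by
      rw [hl4] at hxge
      nlinarith
    have hnum0 : 0 ≤ y / 4 - Real.log 2 - (Real.log 2 + Real.log y) := by linarith
    have h8 : (y / 4 - Real.log 2 - (Real.log 2 + Real.log y)) / Real.log y ≤
        (x * Real.log 2 - Real.log (x + 1)) / Real.log x := by
      refine (div_le_div_of_nonneg_right hnum hlogy.le).trans ?_
      exact div_le_div_of_nonneg_left (hnum0.trans hnum) hlogx hlogxy
    have h9 : 1 / 8 * (y / Real.log y) ≤
        (y / 4 - Real.log 2 - (Real.log 2 + Real.log y)) / Real.log y - 13 := by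
      rw [le_sub_iff_add_le, ← mul_div_assoc, div_add' _ _ _ hlogy.ne',
        div_le_div_iff_of_pos_right hlogy]
      linarith
    linarith

end Pool.Agent.MP_741d1b.KAK
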