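import Pool.Agent.Lib.KAK.LowerCore
import Pool.Agent.Lib.KAK.Supply

/-!
# The lower bound `exp (c log n / log log n)`
-/

set_option autoImplicit false

namespace Pool.Agent.MP_741d1b.KAK

open Finset Filter

theorem log_div_loglog_tendsto :
    Tendsto (fun n : ℕ => Real.log n / Real.log (Real.log n)) atTop atTop := by
  have h1 : Tendsto (fun n : ℕ => Real.log (n : ℝ)) atTop atTop :=
    Real.tendsto_log_atTop.comp tendsto_natCast_atTop_atTop
  have h2 : Tendsto (fun y : ℝ => y / Real.log y) atTop atTop := by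
    have h3 : Tendsto (fun y : ℝ => Real.sqrt y / 2) atTop atTop :=
      Real.tendsto_sqrt_atTop.atTop_div_const (by norm_num)
    refine tendsto_atTop_mono' _ ?_ h3
    filter_upwards [eventually_gt_atTop (1 : ℝ)] with y hy
    have hy0 : 0 < y := by linarith
    have hl : 0 < Real.log y := Real.log_pos hy
    have hs : 0 < Real.sqrt y := Real.sqrt_pos.mpr hy0
    have hss : Real.sqrt y * Real.sqrt y = y := Real.mul_self_sqrt hy0.le
    have h5 : Real.log y = 2 * Real.log (Real.sqrt y) := by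
      rw [Real.log_sqrt hy0.le]; ring
    have h6 : Real.log (Real.sqrt y) ≤ Real.sqrt y := (Real.log_le_sub_one_of_pos hs).trans (by linarith)
    rw [div_le_div_iff₀ (by norm_num) hl]
    nlinarith
  exact h2.comp h1

theorem lower_bound : ∃ c : ℝ, 0 < c ∧ ∃ N : ℕ, ∀ n : ℕ, N ≤ n →
    ∃ A : Finset ℤ, A.card = n ∧ ∀ θ : ℝ, ∃ x : ℝ,
      Real.exp (c * (Real.log n / Real.log (Real.log n))) ≤ (arcCount A n θ x : ℝ) := by
  obtain ⟨c0, hc0, N0, hN0⟩ := supply
  have hlog : 0 < Real.log (9 / 8) := Real.log_pos (by norm_num)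
  refine ⟨c0 * Real.log (9 / 8) / 2, by positivity, ?_⟩
  have ht := log_div_loglog_tendsto.eventually_ge_atTop (2 * Real.log 8 / (c0 * Real.log (9 / 8)))
  obtain ⟨N1, hN1⟩ := eventually_atTop.mp ht
  refine ⟨max N0 N1, fun n hn => ?_⟩
  obtain ⟨P, hP1, hP2, hP3⟩ := hN0 n (le_trans (le_max_left _ _) hn)
  have hL := hN1 n (le_trans (le_max_right _ _) hn)
  set L : ℝ := Real.log n / Real.log (Real.log n) with hLdef
  set r : ℕ := P.card with hr
  have hA : Real.log 8 ≤ c0 * Real.log (9 / 8) / 2 * L := by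
    rw [div_le_iff₀ (by positivity)] at hL
    linarith
  have hB : c0 * Real.log (9 / 8) / 2 * L ≤ (r : ℝ) * Real.log (9 / 8) - Real.log 8 := by
    have h1 : c0 * L * Real.log (9 / 8) ≤ (r : ℝ) * Real.log (9 / 8) :=
      mul_le_mul_of_nonneg_right hP3 hlog.le
    linarith
  -- the length of the progressions
  set w : ℝ := (9 / 8 : ℝ) ^ r / 4 with hw
  have hpow : (9 / 8 : ℝ) ^ r = Real.exp ((r : ℝ) * Real.log (9 / 8)) := by
    rw [mul_comm, Real.exp_mul, Real.exp_log (by norm_num), Real.rpow_natCast]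
  have hw8 : Real.exp (c0 * Real.log (9 / 8) / 2 * L) ≤ w / 2 := by
    have h1 : Real.exp ((r : ℝ) * Real.log (9 / 8) - Real.log 8) = w / 2 := by
      rw [Real.exp_sub, Real.exp_log (by norm_num), ← hpow, hw]
      ring
    rw [← h1]
    exact Real.exp_le_exp.mpr hB
  have hw2 : 2 ≤ w := by
    have h1 : (8 : ℝ) ≤ Real.exp (c0 * Real.log (9 / 8) / 2 * L) := by
      calc (8 : ℝ) = Real.exp (Real.log 8) := (Real.exp_log (by norm_num)).symm
        _ ≤ _ := Real.exp_le_exp.mpr hA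
    linarith
  have hkw : (⌊w⌋₊ : ℝ) ≤ w := Nat.floor_le (by linarith)
  have hkw2 : w / 2 ≤ (⌊w⌋₊ : ℝ) := by
    have := Nat.lt_floor_add_one w
    linarith
  have hk : 0 < ⌊w⌋₊ := Nat.floor_pos.mpr (by linarith)
  have hk3 : 64 * ⌊w⌋₊ ^ 3 * 2 ^ P.card ≤ 3 ^ P.card := by
    have h1 : (64 : ℝ) * (⌊w⌋₊ : ℝ) ^ 3 * 2 ^ r ≤ 3 ^ r := by
      calc (64 : ℝ) * (⌊w⌋₊ : ℝ) ^ 3 * 2 ^ r ≤ 64 * w ^ 3 * 2 ^ r := by gcongr
        _ = ((9 / 8 : ℝ) ^ 3 * 2) ^ r := by
            rw [hw, mul_pow, ← pow_mul, mul_comm 3 r, pow_mul]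
            ring
        _ ≤ 3 ^ r := pow_le_pow_left₀ (by norm_num) (by norm_num) r
    exact_mod_cast h1
  obtain ⟨A, hA1, hA2⟩ := lower_core hP1 hP2 hk hk3
  refine ⟨A, hA1, fun θ => ?_⟩
  obtain ⟨x, hx⟩ := hA2 θ
  refine ⟨x, ?_⟩
  have hx' : (⌊w⌋₊ : ℝ) ≤ (arcCount A n θ x : ℝ) := by exact_mod_cast hx
  linarith

end Pool.Agent.MP_741d1b.KAK
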