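import Pool.Agent.Lib.KAK.Dirichlet

/-!
# Sets with progressions of all differences have clustered dilates
-/

set_option autoImplicit false

namespace Pool.Agent.MP_741d1b.KAK

open Finset

/-- The linear map `z ↦ ∑ i, z i * L ^ i`. -/
def phi {m : ℕ} (L : ℤ) (z : Fin m → ℤ) : ℤ := ∑ i, z i * L ^ (i : ℕ)

theorem phi_add {m : ℕ} (L : ℤ) (z w : Fin m → ℤ) : phi L (z + w) = phi L z + phi L w := by
  simp [phi, add_mul, sum_add_distrib]

theorem phi_smul {m : ℕ} (L c : ℤ) (z : Fin m → ℤ) : phi L (c • z) = c * phi L z := by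
  simp [phi, mul_sum, mul_assoc]

/-- For a finite set `A` of integer vectors, `phi L` is injective on `A` for some `L`. -/
theorem exists_injOn {m : ℕ} (A : Finset (Fin m → ℤ)) :
    ∃ L : ℤ, Set.InjOn (phi L) (A : Set (Fin m → ℤ)) := by
  classical
  -- the polynomials of the differences
  let P : (Fin m → ℤ) → Polynomial ℤ := fun z => ∑ i : Fin m, Polynomial.monomial (i : ℕ) (z i)
  have hP0 : ∀ z : Fin m → ℤ, P z = 0 → z = 0 := by
    intro z hz
    funext i
    have h := congrArg (fun p => Polynomial.coeff p (i : ℕ)) hz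
    simp only [P, Polynomial.finsetSum_coeff, Polynomial.coeff_monomial, Polynomial.coeff_zero] at h
    rw [sum_eq_single i] at h
    · simpa using h
    · intro b _ hb
      rw [if_neg]
      intro hb'
      exact hb (Fin.ext hb')
    · intro hi
      exact absurd (mem_univ i) hi
  have hPe : ∀ (z : Fin m → ℤ) (L : ℤ), (P z).eval L = phi L z := by
    intro z L
    simp [P, phi, Polynomial.eval_finsetSum, Polynomial.eval_monomial]
  let R : Finset ℤ := ((A ×ˢ A).image fun q => q.1 - q.2).biUnion fun z =>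
    if z = 0 then ∅ else (P z).roots.toFinset
  obtain ⟨L, hL⟩ := Infinite.exists_notMem_finset R
  refine ⟨L, ?_⟩
  intro z hz w hw hzw
  by_contra hne
  apply hL
  simp only [R, mem_biUnion, mem_image, mem_product]
  refine ⟨z - w, ⟨(z, w), ⟨hz, hw⟩, rfl⟩, ?_⟩
  have hzw0 : z - w ≠ 0 := sub_ne_zero.mpr hne
  rw [if_neg hzw0, Multiset.mem_toFinset, Polynomial.mem_roots']
  refine ⟨fun h => hzw0 (hP0 _ h), ?_⟩
  show (P (z - w)).eval L = 0
  rw [hPe]
  have : phi L (z - w) = phi L z - phi L w := by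
    simp [phi, sub_mul, sum_sub_distrib]
  rw [this, hzw, sub_self]

theorem transfer {m X k n : ℕ} (hm : 0 < m) (hX : 0 < X) (hk : 0 < k) (hn : 0 < n)
    (A : Finset (Fin m → ℤ)) (hA : AllDiffs A X k) (hcard : A.card ≤ n)
    (hkn : k * n ≤ X ^ m) :
    ∃ B : Finset ℤ, B.card = n ∧ ∀ θ : ℝ, ∃ x : ℝ, k ≤ arcCount B n θ x := by
  classical
  obtain ⟨L, hL⟩ := exists_injOn A
  have hc : (A.image (phi L)).card ≤ n := (card_image_le).trans hcard
  obtain ⟨B, hAB, hBn⟩ := Infinite.exists_superset_card_eq (A.image (phi L)) n hc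
  refine ⟨B, hBn, fun θ => ?_⟩
  obtain ⟨g, hg0, hgX, h, hh⟩ := dirichlet hm hX (fun i : Fin m => θ * (L : ℝ) ^ (i : ℕ))
  obtain ⟨x, hx⟩ := hA g hgX
  set e : ℝ := ∑ i : Fin m, θ * (L : ℝ) ^ (i : ℕ) * (g i : ℝ) - h with he
  have hphi : θ * (phi L g : ℝ) = h + e := by
    rw [he]
    simp only [phi]
    push_cast
    rw [mul_sum]
    have : ∑ i : Fin m, θ * ((g i : ℝ) * (L : ℝ) ^ (i : ℕ)) =
        ∑ i : Fin m, θ * (L : ℝ) ^ (i : ℕ) * (g i : ℝ) :=
      sum_congr rfl fun i _ => by ring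
    rw [this]
    ring
  have hkpos : (0 : ℝ) < (k : ℝ) := by exact_mod_cast hk
  have hnpos : (0 : ℝ) < (n : ℝ) := by exact_mod_cast hn
  have hXpos : (0 : ℝ) < (X : ℝ) ^ m := by positivity
  have hke : (k : ℝ) * |e| ≤ 1 / n := by
    have h1 : (k : ℝ) * n ≤ (X : ℝ) ^ m := by exact_mod_cast hkn
    calc (k : ℝ) * |e| ≤ k * (1 / (X : ℝ) ^ m) := by
          exact mul_le_mul_of_nonneg_left hh hkpos.le
      _ ≤ 1 / n := by
          rw [mul_one_div, div_le_div_iff₀ hXpos hnpos, one_mul]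
          exact h1
  -- the left end of the arc
  let x0 : ℝ := θ * (phi L x : ℝ) + min 0 ((k : ℝ) * e)
  refine ⟨x0, ?_⟩
  have hinj : Set.InjOn (fun j : ℕ => phi L (x + (j : ℤ) • g)) (Set.Iio k) := by
    intro i hi j hj hij
    have h1 := hL (hx i hi) (hx j hj) hij
    have h2 : ((i : ℤ) - (j : ℤ)) • g = 0 := by
      rw [sub_smul, sub_eq_zero]
      exact add_left_cancel h1
    rcases smul_eq_zero.mp h2 with h3 | h3
    · exact_mod_cast sub_eq_zero.mp h3
    · exact absurd h3 hg0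
  have hfin : {a : ℤ | a ∈ B ∧ ∃ k : ℤ, x0 ≤ θ * (a : ℝ) - (k : ℝ) ∧
      θ * (a : ℝ) - (k : ℝ) ≤ x0 + 1 / (n : ℝ)}.Finite :=
    B.finite_toSet.subset fun a ha => ha.1
  have hsub : (fun j : ℕ => phi L (x + (j : ℤ) • g)) '' (Set.Iio k) ⊆
      {a : ℤ | a ∈ B ∧ ∃ k : ℤ, x0 ≤ θ * (a : ℝ) - (k : ℝ) ∧
      θ * (a : ℝ) - (k : ℝ) ≤ x0 + 1 / (n : ℝ)} := by
    rintro _ ⟨j, hj, rfl⟩
    refine ⟨hAB (mem_image_of_mem _ (hx j hj)), (j : ℤ) * h, ?_⟩
    have hval : θ * ((phi L (x + (j : ℤ) • g) : ℤ) : ℝ) - (((j : ℤ) * h : ℤ) : ℝ)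
        = θ * (phi L x : ℝ) + (j : ℝ) * e := by
      rw [phi_add, phi_smul]
      push_cast
      linear_combination (j : ℝ) * hphi
    have hj0 : (0 : ℝ) ≤ (j : ℝ) := Nat.cast_nonneg j
    have hjk : (j : ℝ) ≤ (k : ℝ) := by exact_mod_cast (Set.mem_Iio.mp hj).le
    rw [hval]
    simp only [x0]
    rcases le_total 0 e with he0 | he0
    · rw [abs_of_nonneg he0] at hke
      have h1 : (0 : ℝ) ≤ (k : ℝ) * e := mul_nonneg hkpos.le he0
      rw [min_eq_left h1]
      constructor <;> nlinarith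
    · rw [abs_of_nonpos he0] at hke
      have h1 : (k : ℝ) * e ≤ 0 := mul_nonpos_of_nonneg_of_nonpos hkpos.le he0
      rw [min_eq_right h1]
      constructor <;> nlinarith
  calc k = (Set.Iio k).ncard := by simp
    _ = ((fun j : ℕ => phi L (x + (j : ℤ) • g)) '' (Set.Iio k)).ncard :=
        hinj.ncard_image.symm
    _ ≤ arcCount B n θ x0 := Set.ncard_le_ncard hsub hfin

end Pool.Agent.MP_741d1b.KAK
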