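import Pool.Agent.Lib.KAK.Lift
import Pool.Agent.Lib.KAK.Transfer

/-!
# Sets of `n` integers all of whose dilates have a cluster of `k` points
-/

set_option autoImplicit false

namespace Pool.Agent.MP_741d1b.KAK

open Finset

theorem lower_core {P : Finset ℕ} (hP : ∀ p ∈ P, p.Prime ∧ 13 ≤ p) {n k : ℕ}
    (hq : (∏ p ∈ P, p) ^ 2 ≤ n) (hk : 0 < k) (hk3 : 64 * k ^ 3 * 2 ^ P.card ≤ 3 ^ P.card) :
    ∃ A : Finset ℤ, A.card = n ∧ ∀ θ : ℝ, ∃ x : ℝ, k ≤ arcCount A n θ x := by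
  classical
  have hM := modKak_prod P hP
  obtain ⟨q, hqdef⟩ : ∃ q : ℕ, q = ∏ p ∈ P, p := ⟨_, rfl⟩
  rw [← hqdef] at hq hM
  obtain ⟨K, hK1, hK2⟩ := hM
  set r : ℕ := P.card with hr
  have hq0 : 0 < q := hqdef ▸ prod_pos fun p hp => (hP p hp).1.pos
  have h2r : 0 < 2 ^ r := by positivity
  have h3r : 0 < 3 ^ r := by positivity
  have hn : 0 < n := lt_of_lt_of_le (by positivity) hq
  set T : ℕ := Nat.sqrt (n * 3 ^ r / 2 ^ r) with hT
  set s : ℕ := T / q with hs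
  have hT1 : T * T * 2 ^ r ≤ n * 3 ^ r := by
    calc T * T * 2 ^ r ≤ (n * 3 ^ r / 2 ^ r) * 2 ^ r := Nat.mul_le_mul_right _ (Nat.sqrt_le _)
      _ ≤ n * 3 ^ r := Nat.div_mul_le_self _ _
  have hT2 : n * 3 ^ r < (T + 1) * (T + 1) * 2 ^ r := by
    have h1 : n * 3 ^ r / 2 ^ r < (T + 1) * (T + 1) := Nat.lt_succ_sqrt _
    exact (Nat.div_lt_iff_lt_mul h2r).mp h1
  have hk3' : 1 ≤ k ^ 3 := Nat.one_le_pow _ _ hk
  have h4 : 4 * 2 ^ r ≤ 3 ^ r := by nlinarith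
  have hsT : s * q ≤ T := Nat.div_mul_le_self _ _
  have hTs : T + 1 ≤ (s + 1) * q := by
    have := Nat.lt_mul_of_div_lt (Nat.lt_succ_self (T / q)) hq0
    rw [← hs] at this
    nlinarith
  have hs2 : 2 ≤ s := by
    rw [hs, Nat.le_div_iff_mul_le hq0, hT, Nat.le_sqrt, Nat.le_div_iff_mul_le h2r]
    calc 2 * q * (2 * q) * 2 ^ r = q ^ 2 * (4 * 2 ^ r) := by ring
      _ ≤ n * 3 ^ r := Nat.mul_le_mul hq h4
  obtain ⟨s1, hs1⟩ : ∃ s1 : ℕ, s = s1 + 1 := ⟨s - 1, by omega⟩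
  have hs11 : 1 ≤ s1 := by omega
  have hkq : k ≤ q := by
    have h1 : 3 ^ r ≤ q := by
      rw [hr, hqdef]
      exact Finset.pow_card_le_prod P (fun p => p) 3 fun p hp => by have := (hP p hp).2; omega
    have h2 : k ≤ k ^ 3 := Nat.le_self_pow (by norm_num) k
    nlinarith
  set X : ℕ := s1 * q / k with hX
  have hkX : k * X ≤ s1 * q := Nat.mul_div_le _ _
  have hX1 : 1 ≤ X := by
    rw [hX, Nat.le_div_iff_mul_le hk]
    nlinarith
  have hX2 : s1 * q ≤ 2 * k * X := by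
    have h1 : s1 * q < k * (X + 1) := by
      rw [hX, mul_comm k]
      exact Nat.lt_mul_of_div_lt (Nat.lt_succ_self _) hk
    nlinarith
  obtain ⟨A, hA1, hA2⟩ := lift hq0 hK2 (s := s) (k := k) (X := X) (by omega)
    (by rw [hs1, Nat.add_sub_cancel]; exact hkX)
  have hAn : A.card ≤ n := by
    have h1 : 3 ^ r * A.card ≤ 3 ^ r * n := by
      calc 3 ^ r * A.card ≤ 3 ^ r * (s ^ 2 * K.card) := Nat.mul_le_mul_left _ hA1
        _ = s ^ 2 * (3 ^ r * K.card) := by ring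
        _ ≤ s ^ 2 * (2 ^ r * q ^ 2) := Nat.mul_le_mul_left _ hK1
        _ = (s * q) * (s * q) * 2 ^ r := by ring
        _ ≤ T * T * 2 ^ r := Nat.mul_le_mul_right _ (Nat.mul_le_mul hsT hsT)
        _ ≤ n * 3 ^ r := hT1
        _ = 3 ^ r * n := by ring
    exact Nat.le_of_mul_le_mul_left h1 h3r
  have hkn : k * n ≤ X ^ 2 := by
    -- 36 k² X² 2^r ≥ ((s+1) q)² 2^r > n 3^r ≥ 64 k³ n 2^r
    have e1 : (s + 1) * q ≤ 3 * (2 * k * X) := by
      rw [hs1]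
      nlinarith
    have e2 : n * 3 ^ r < (3 * (2 * k * X)) * (3 * (2 * k * X)) * 2 ^ r :=
      lt_of_lt_of_le hT2 (Nat.mul_le_mul_right _ (Nat.mul_le_mul (hTs.trans e1) (hTs.trans e1)))
    have e3 : n * (64 * k ^ 3 * 2 ^ r) ≤ n * 3 ^ r := Nat.mul_le_mul_left _ hk3
    have e4 : (64 * (k * n)) * (k ^ 2 * 2 ^ r) < (36 * X ^ 2) * (k ^ 2 * 2 ^ r) := by
      calc (64 * (k * n)) * (k ^ 2 * 2 ^ r) = n * (64 * k ^ 3 * 2 ^ r) := by ring
        _ ≤ n * 3 ^ r := e3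
        _ < (3 * (2 * k * X)) * (3 * (2 * k * X)) * 2 ^ r := e2
        _ = (36 * X ^ 2) * (k ^ 2 * 2 ^ r) := by ring
    have e5 := lt_of_mul_lt_mul_right e4 (Nat.zero_le _)
    omega
  exact transfer (by norm_num) (by omega) hk hn A hA2 hAn hkn

end Pool.Agent.MP_741d1b.KAK
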