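import Pool.Agent.Lib.KAK.Kakeya
import Pool.Agent.Lib.KAK.Lower

/-!
# Q1 implies the Minkowski form of the Kakeya conjecture
-/

set_option autoImplicit false

namespace Pool.Agent.MP_741d1b.KAK

/-- If Q1 holds for all exponents, bounded Kakeya sets have full lower Minkowski dimension. -/
theorem kakeya_full (hQ : ∀ c : ℝ, 0 < c → Dilates c) {d : ℕ} (hd : 2 ≤ d)
    {E : Set (Fin d → ℝ)} (hE : IsKakeya E) (hb : Bornology.IsBounded E) {ε : ℝ} (hε : 0 < ε) :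
    ∃ δ₀ : ℝ, 0 < δ₀ ∧ ∀ δ : ℝ, 0 < δ → δ < δ₀ →
      δ ^ (-((d : ℝ) - ε)) ≤ ((cells E δ).ncard : ℝ) := by
  have hd0 : (0 : ℝ) < d := by exact_mod_cast (by omega : 0 < d)
  have hc1 : 0 < ε / (2 * (d : ℝ) ^ 2) := by positivity
  obtain ⟨C, hC, δ₀, hδ₀, h⟩ := kakeya_bound hc1 (hQ _ hc1) hd hE hb
  set c : ℝ := ε / (2 * d ^ 2) with hc
  have hc0 : 0 < c := by positivity
  have hce : c * ((d : ℝ) ^ 2 - 1) / (1 + c * d) ≤ ε / 2 := by
    rw [div_le_iff₀ (by positivity)]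
    have h1 : c * (d : ℝ) ^ 2 = ε / 2 := by rw [hc]; field_simp
    nlinarith [mul_pos hc0 hd0]
  refine ⟨min (min δ₀ 1) (C ^ (2 / ε)), by positivity, fun δ hδ hlt => ?_⟩
  have h1 : δ < δ₀ := lt_of_lt_of_le hlt ((min_le_left _ _).trans (min_le_left _ _))
  have h2 : δ ≤ 1 := (lt_of_lt_of_le hlt ((min_le_left _ _).trans (min_le_right _ _))).le
  have h3 : δ ≤ C ^ (2 / ε) := (lt_of_lt_of_le hlt (min_le_right _ _)).le
  refine le_trans ?_ (h δ hδ h1)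
  have h4 : δ ^ (ε / 2) ≤ C := by
    calc δ ^ (ε / 2) ≤ (C ^ (2 / ε)) ^ (ε / 2) := Real.rpow_le_rpow hδ.le h3 (by positivity)
      _ = C := by
        rw [← Real.rpow_mul hC.le]
        have : 2 / ε * (ε / 2) = 1 := by field_simp
        rw [this, Real.rpow_one]
  have h5 : δ ^ (-((d : ℝ) - ε)) = δ ^ (ε / 2) * δ ^ (-((d : ℝ) - ε / 2)) := by
    rw [← Real.rpow_add hδ]; congr 1; ring
  rw [h5]
  have h6 : δ ^ (-((d : ℝ) - ε / 2)) ≤
      δ ^ (-((d : ℝ) - c * ((d : ℝ) ^ 2 - 1) / (1 + c * d))) := by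
    apply Real.rpow_le_rpow_of_exponent_ge hδ h2
    linarith
  have h7 : 0 < δ ^ (-((d : ℝ) - ε / 2)) := Real.rpow_pos_of_pos hδ _
  exact mul_le_mul h4 h6 h7.le hC.le

end Pool.Agent.MP_741d1b.KAK
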