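import Pool.Agent.Lib.KAK.Defs

/-!
# Small Kakeya sets modulo squarefree numbers
-/

set_option autoImplicit false

namespace Pool.Agent.MP_741d1b.KAK

open Finset

/-- `K` contains a progression with difference `(u, v)` for all `u`, `v` modulo `q`. -/
def ModKak (q : ℕ) (K : Finset (ZMod q × ZMod q)) : Prop :=
  ∀ u v : ZMod q, ∃ x y : ZMod q, ∀ j : ℕ, (x + (j : ZMod q) * u, y + (j : ZMod q) * v) ∈ K

theorem modKak_prime {p : ℕ} (hp : p.Prime) (h13 : 13 ≤ p) :
    ∃ K : Finset (ZMod p × ZMod p), 3 * K.card ≤ 2 * p ^ 2 ∧ ModKak p K := by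
  classical
  have : Fact p.Prime := ⟨hp⟩
  -- the squares
  let Sq : Finset (ZMod p) := (range (p / 2 + 1)).image fun i => ((i : ℕ) : ZMod p) ^ 2
  have hSqc : Sq.card ≤ p / 2 + 1 := card_image_le.trans (by simp)
  have hSq : ∀ a : ZMod p, a ^ 2 ∈ Sq := by
    intro a
    refine mem_image.mpr ⟨a.valMinAbs.natAbs, ?_, ?_⟩
    · rw [mem_range]
      have := ZMod.natAbs_valMinAbs_le a
      omega
    · have h3 : ((a.valMinAbs : ℤ) : ZMod p) = a := ZMod.coe_valMinAbs a
      rcases Int.natAbs_eq a.valMinAbs with h | h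
      · rw [h] at h3
        rw [Int.cast_natCast] at h3
        rw [h3]
      · rw [h, Int.cast_neg, Int.cast_natCast] at h3
        rw [neg_eq_iff_eq_neg.mp h3, neg_sq]
  let K1 : Finset (ZMod p × ZMod p) :=
    ((univ : Finset (ZMod p)) ×ˢ Sq).image fun q => (q.1, q.1 ^ 2 - q.2)
  let K2 : Finset (ZMod p × ZMod p) := (univ : Finset (ZMod p)).image fun b => (0, b)
  refine ⟨K1 ∪ K2, ?_, ?_⟩
  · have hu : (univ : Finset (ZMod p)).card = p := by rw [card_univ, ZMod.card]
    have h1 : K1.card ≤ p * (p / 2 + 1) := by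
      refine card_image_le.trans ?_
      rw [card_product, hu]
      exact Nat.mul_le_mul_left p hSqc
    have h2 : K2.card ≤ p := card_image_le.trans (by rw [hu])
    have h3 := card_union_le K1 K2
    have h4 : p / 2 * 2 ≤ p := Nat.div_mul_le_self p 2
    nlinarith
  · intro u v
    by_cases hu : u = 0
    · refine ⟨0, 0, fun j => mem_union_right _ ?_⟩
      simp only [K2, mem_image, mem_univ, true_and]
      exact ⟨0 + (j : ZMod p) * v, by simp [hu]⟩
    · have h2 : (2 : ZMod p) ≠ 0 := by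
        have hne : ((2 : ℕ) : ZMod p) ≠ 0 := by
          intro h
          rw [ZMod.natCast_eq_zero_iff] at h
          have := Nat.le_of_dvd (by norm_num) h
          omega
        simpa using hne
      set w : ZMod p := v / u with hw
      have hv : v = w * u := by rw [hw]; field_simp
      refine ⟨0, -(w / 2) ^ 2, fun j => mem_union_left _ ?_⟩
      simp only [K1, mem_image, mem_product, mem_univ, true_and]
      refine ⟨(0 + (j : ZMod p) * u, (((j : ZMod p) * u) - w / 2) ^ 2), hSq _, ?_⟩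
      ext
      · rfl
      · simp only
        rw [hv]
        field_simp
        ring

theorem modKak_mul {a b : ℕ} (hab : Nat.Coprime a b)
    {Ka : Finset (ZMod a × ZMod a)} {Kb : Finset (ZMod b × ZMod b)}
    (h1 : ModKak a Ka) (h2 : ModKak b Kb) :
    ∃ K : Finset (ZMod (a * b) × ZMod (a * b)), K.card ≤ Ka.card * Kb.card ∧ ModKak (a * b) K := by
  classical
  let e := ZMod.chineseRemainder hab
  refine ⟨(Ka ×ˢ Kb).image fun q => (e.symm (q.1.1, q.2.1), e.symm (q.1.2, q.2.2)), ?_, ?_⟩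
  · exact card_image_le.trans (by rw [card_product])
  · intro u v
    obtain ⟨x1, y1, hx1⟩ := h1 (e u).1 (e v).1
    obtain ⟨x2, y2, hx2⟩ := h2 (e u).2 (e v).2
    refine ⟨e.symm (x1, x2), e.symm (y1, y2), fun j => ?_⟩
    refine mem_image.mpr ⟨((x1 + j * (e u).1, y1 + j * (e v).1), (x2 + j * (e u).2, y2 + j * (e v).2)),
      mem_product.mpr ⟨hx1 j, hx2 j⟩, ?_⟩
    have key : ∀ (s t w : ZMod (a * b)) (s1 : ZMod a) (s2 : ZMod b), e s = (s1, s2) →
        e.symm (s1 + j * (e w).1, s2 + j * (e w).2) = s + j * w := by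
      intro s t w s1 s2 hs
      apply e.injective
      rw [RingEquiv.apply_symm_apply, map_add, map_mul, map_natCast, hs]
      rfl
    ext
    · exact key _ 0 u x1 x2 (by simp)
    · exact key _ 0 v y1 y2 (by simp)

theorem modKak_prod (P : Finset ℕ) (hP : ∀ p ∈ P, p.Prime ∧ 13 ≤ p) :
    ∃ K : Finset (ZMod (∏ p ∈ P, p) × ZMod (∏ p ∈ P, p)),
      3 ^ P.card * K.card ≤ 2 ^ P.card * (∏ p ∈ P, p) ^ 2 ∧ ModKak (∏ p ∈ P, p) K := by
  classical
  induction P using Finset.induction_on with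
  | empty =>
    have h0 : ({(0, 0)} : Finset (ZMod (∏ p ∈ (∅ : Finset ℕ), p) ×
        ZMod (∏ p ∈ (∅ : Finset ℕ), p))).card ≤ 1 := (card_singleton _).le
    refine ⟨{(0, 0)}, ?_, fun u v => ⟨0, 0, fun j => ?_⟩⟩
    · rw [card_empty, pow_zero, pow_zero, one_mul, one_mul]
      exact h0.trans (by simp)
    rw [mem_singleton]
    exact Subsingleton.elim (α := ZMod 1 × ZMod 1) _ _
  | insert p P hpP ih =>
    obtain ⟨Kb, hb1, hb2⟩ := ih fun r hr => hP r (mem_insert_of_mem hr)
    obtain ⟨hp, h13⟩ := hP p (mem_insert_self p P)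
    obtain ⟨Ka, ha1, ha2⟩ := modKak_prime hp h13
    have hco : Nat.Coprime p (∏ r ∈ P, r) := by
      refine Nat.Coprime.prod_right fun r hr => ?_
      exact (Nat.coprime_primes hp (hP r (mem_insert_of_mem hr)).1).mpr
        fun h => hpP (h ▸ hr)
    obtain ⟨K, hK1, hK2⟩ := modKak_mul hco ha2 hb2
    rw [prod_insert hpP]
    refine ⟨K, ?_, hK2⟩
    rw [card_insert_of_notMem hpP, pow_succ, pow_succ]
    calc 3 ^ P.card * 3 * K.card ≤ 3 ^ P.card * 3 * (Ka.card * Kb.card) := Nat.mul_le_mul_left _ hK1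
      _ = (3 * Ka.card) * (3 ^ P.card * Kb.card) := by ring
      _ ≤ (2 * p ^ 2) * (2 ^ P.card * (∏ r ∈ P, r) ^ 2) := Nat.mul_le_mul ha1 hb1
      _ = 2 ^ P.card * 2 * (p * ∏ r ∈ P, r) ^ 2 := by ring

end Pool.Agent.MP_741d1b.KAK
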